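import Pool.Agent.E8helper20.AZ.Fub

/-!
# Project AZ, part BEU: Beukers' integrations by parts and substitution
-/

set_option autoImplicit false

namespace Pool.Agent.E8helper20.AZ

open MeasureTheory Set intervalIntegral
open Pool.Agent.E8helper42.AZ
open scoped Nat

/-- the first integrand -/
noncomputable def F1 (n : ℕ) (p : ℝ × ℝ × ℝ) : ℝ := (pl n).eval p.1 * (pl n).eval p.2.1 * K p

/-- after the integration by parts in `x` -/
noncomputable def F2 (n : ℕ) (p : ℝ × ℝ × ℝ) : ℝ :=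
  (p.1 * p.2.1 * p.2.2) ^ n * (1 - p.1) ^ n * (pl n).eval p.2.1 * K p ^ (n + 1)

/-- after the substitution in `z` -/
noncomputable def F3 (n : ℕ) (p : ℝ × ℝ × ℝ) : ℝ :=
  (1 - p.1) ^ n * (1 - p.2.2) ^ n * (pl n).eval p.2.1 * K p

/-- after the integration by parts in `y` -/
noncomputable def F4 (n : ℕ) (p : ℝ × ℝ × ℝ) : ℝ :=
  (p.1 * p.2.1 * p.2.2) ^ n * ((1 - p.1) * (1 - p.2.1) * (1 - p.2.2)) ^ n * K p ^ (n + 1)

lemma pl_bdd (n : ℕ) : ∃ C : ℝ, 0 ≤ C ∧ ∀ x ∈ Ioo (0 : ℝ) 1, |(pl n).eval x| ≤ C := by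
  obtain ⟨C, hC⟩ := isCompact_Icc.exists_bound_of_continuousOn
    ((pl n).continuous.continuousOn (s := Icc (0 : ℝ) 1))
  refine ⟨|C|, abs_nonneg C, fun x hx => ?_⟩
  exact (hC x (Ioo_subset_Icc_self hx)).trans (le_abs_self C)

lemma pl_meas (n : ℕ) : Measurable fun x => (pl n).eval x := (pl n).continuous.measurable

lemma K_pos {x y z : ℝ} (hx : x ∈ Ioo (0 : ℝ) 1) (hy : y ∈ Ioo (0 : ℝ) 1) (hz : z ∈ Ioo (0 : ℝ) 1) :
    0 < K (x, y, z) := by
  have := den_pos hx hy hz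
  unfold K
  positivity

lemma xyzK_le {x y z : ℝ} (hx : x ∈ Ioo (0 : ℝ) 1) (hy : y ∈ Ioo (0 : ℝ) 1) (hz : z ∈ Ioo (0 : ℝ) 1) :
    x * y * z * K (x, y, z) ≤ 1 := by
  unfold K
  rw [mul_one_div, div_le_one (den_pos hx hy hz)]
  exact den_ge hz

lemma F1_int (n : ℕ) : Integrable (F1 n) T := by
  obtain ⟨C, hC0, hC⟩ := pl_bdd n
  refine dom ?_ (C * C) fun x hx y hy z hz => ?_
  · unfold F1
    exact (((pl_meas n).comp measurable_fst).mul ((pl_meas n).comp (measurable_fst.comp measurable_snd))).mul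
      K_meas
  · unfold F1
    simp only
    rw [abs_mul, abs_mul, abs_of_pos (K_pos hx hy hz)]
    exact mul_le_mul_of_nonneg_right (mul_le_mul (hC x hx) (hC y hy) (abs_nonneg _) hC0)
      (K_pos hx hy hz).le

lemma pow_le_one' {a : ℝ} (h0 : 0 ≤ a) (h1 : a ≤ 1) (n : ℕ) : |a ^ n| ≤ 1 := by
  rw [abs_of_nonneg (pow_nonneg h0 n)]
  exact pow_le_one₀ h0 h1

lemma F2_int (n : ℕ) : Integrable (F2 n) T := by
  obtain ⟨C, hC0, hC⟩ := pl_bdd n
  refine dom ?_ C fun x hx y hy z hz => ?_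
  · unfold F2
    have h1 : Measurable fun p : ℝ × ℝ × ℝ => (p.1 * p.2.1 * p.2.2) ^ n * (1 - p.1) ^ n := by fun_prop
    exact ((h1.mul ((pl_meas n).comp (measurable_fst.comp measurable_snd))).mul (K_meas.pow_const (n + 1)))
  · have hK := K_pos hx hy hz
    have e : F2 n (x, y, z) = (x * y * z * K (x, y, z)) ^ n * (1 - x) ^ n * (pl n).eval y * K (x, y, z) := by
      unfold F2
      simp only
      rw [mul_pow (x * y * z)]
      ring
    have h0 : 0 ≤ x * y * z * K (x, y, z) :=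
      mul_nonneg (mul_nonneg (mul_nonneg hx.1.le hy.1.le) hz.1.le) hK.le
    rw [e, abs_mul, abs_mul, abs_mul, abs_of_pos hK]
    refine mul_le_mul_of_nonneg_right ?_ hK.le
    have h1 := pow_le_one' h0 (xyzK_le hx hy hz) n
    have h2 := pow_le_one' (a := 1 - x) (by linarith [hx.2]) (by linarith [hx.1]) n
    have h3 : |(x * y * z * K (x, y, z)) ^ n| * |(1 - x) ^ n| ≤ 1 := by
      calc _ ≤ (1 : ℝ) * 1 := mul_le_mul h1 h2 (abs_nonneg _) zero_le_one
        _ = 1 := one_mul 1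
    calc _ ≤ 1 * C := mul_le_mul h3 (hC y hy) (abs_nonneg _) zero_le_one
      _ = C := one_mul C

lemma F3_int (n : ℕ) : Integrable (F3 n) T := by
  obtain ⟨C, hC0, hC⟩ := pl_bdd n
  refine dom ?_ C fun x hx y hy z hz => ?_
  · unfold F3
    have h1 : Measurable fun p : ℝ × ℝ × ℝ => (1 - p.1) ^ n * (1 - p.2.2) ^ n := by fun_prop
    exact ((h1.mul ((pl_meas n).comp (measurable_fst.comp measurable_snd))).mul K_meas)
  · have hK := K_pos hx hy hz
    unfold F3
    simp only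
    rw [abs_mul, abs_mul, abs_mul, abs_of_pos hK]
    refine mul_le_mul_of_nonneg_right ?_ hK.le
    have h1 := pow_le_one' (a := 1 - z) (by linarith [hz.2]) (by linarith [hz.1]) n
    have h2 := pow_le_one' (a := 1 - x) (by linarith [hx.2]) (by linarith [hx.1]) n
    have h3 : |(1 - x) ^ n| * |(1 - z) ^ n| ≤ 1 := by
      calc _ ≤ (1 : ℝ) * 1 := mul_le_mul h2 h1 (abs_nonneg _) zero_le_one
        _ = 1 := one_mul 1
    calc _ ≤ 1 * C := mul_le_mul h3 (hC y hy) (abs_nonneg _) zero_le_one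
      _ = C := one_mul C

lemma F4_int (n : ℕ) : Integrable (F4 n) T := by
  refine dom ?_ 1 fun x hx y hy z hz => ?_
  · unfold F4
    have h1 : Measurable fun p : ℝ × ℝ × ℝ =>
      (p.1 * p.2.1 * p.2.2) ^ n * ((1 - p.1) * (1 - p.2.1) * (1 - p.2.2)) ^ n := by fun_prop
    exact (h1.mul (K_meas.pow_const (n + 1)))
  · have hK := K_pos hx hy hz
    have e : F4 n (x, y, z) = (x * y * z * K (x, y, z)) ^ n * ((1 - x) * (1 - y) * (1 - z)) ^ n *
        K (x, y, z) := by
      unfold F4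
      simp only
      rw [mul_pow (x * y * z)]
      ring
    have h0 : 0 ≤ x * y * z * K (x, y, z) :=
      mul_nonneg (mul_nonneg (mul_nonneg hx.1.le hy.1.le) hz.1.le) hK.le
    have hx' : 0 ≤ 1 - x ∧ 1 - x ≤ 1 := ⟨by linarith [hx.2], by linarith [hx.1]⟩
    have hy' : 0 ≤ 1 - y ∧ 1 - y ≤ 1 := ⟨by linarith [hy.2], by linarith [hy.1]⟩
    have hz' : 0 ≤ 1 - z ∧ 1 - z ≤ 1 := ⟨by linarith [hz.2], by linarith [hz.1]⟩
    rw [e, abs_mul, abs_mul, abs_of_pos hK]
    refine mul_le_mul_of_nonneg_right ?_ hK.le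
    have h1 := pow_le_one' h0 (xyzK_le hx hy hz) n
    have h2 := pow_le_one' (a := (1 - x) * (1 - y) * (1 - z))
      (mul_nonneg (mul_nonneg hx'.1 hy'.1) hz'.1)
      (mul_le_one₀ (mul_le_one₀ hx'.2 hy'.1 hy'.2) hz'.1 hz'.2) n
    calc _ ≤ (1 : ℝ) * 1 := mul_le_mul h1 h2 (abs_nonneg _) zero_le_one
      _ = 1 := one_mul 1

lemma step12 (n : ℕ) : ∫ p, F1 n p ∂T = ∫ p, F2 n p ∂T := by
  refine fub_x (F1_int n) (F2_int n) fun y hy z hz => ?_
  have h := int_frac n (a := 1 - z) (b := y * z) (by linarith [hz.2]) (mul_nonneg hy.1.le hz.1.le)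
  have e1 : ∫ x in (0 : ℝ)..1, F1 n (x, y, z) =
      (pl n).eval y * ∫ x in (0 : ℝ)..1, (pl n).eval x / (1 - z + y * z * x) := by
    rw [← intervalIntegral.integral_const_mul]
    refine intervalIntegral.integral_congr fun x _ => ?_
    simp only [F1, K]
    rw [show 1 - (1 - x * y) * z = 1 - z + y * z * x by ring]
    ring
  have e2 : ∫ x in (0 : ℝ)..1, F2 n (x, y, z) =
      (pl n).eval y * ∫ x in (0 : ℝ)..1, x ^ n * (1 - x) ^ n * (y * z) ^ n / (1 - z + y * z * x) ^ (n + 1) := by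
    rw [← intervalIntegral.integral_const_mul]
    refine intervalIntegral.integral_congr fun x _ => ?_
    simp only [F2, K]
    rw [show 1 - (1 - x * y) * z = 1 - z + y * z * x by ring, one_div, inv_pow, mul_assoc x y z, mul_pow x]
    ring
  rw [e1, e2, h]

lemma step34 (n : ℕ) : ∫ p, F3 n p ∂T = ∫ p, F4 n p ∂T := by
  refine fub_y (F3_int n) (F4_int n) fun x hx z hz => ?_
  have h := int_frac n (a := 1 - z) (b := x * z) (by linarith [hz.2]) (mul_nonneg hx.1.le hz.1.le)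
  have e1 : ∫ y in (0 : ℝ)..1, F3 n (x, y, z) =
      (1 - x) ^ n * (1 - z) ^ n * ∫ y in (0 : ℝ)..1, (pl n).eval y / (1 - z + x * z * y) := by
    rw [← intervalIntegral.integral_const_mul]
    refine intervalIntegral.integral_congr fun y _ => ?_
    simp only [F3, K]
    rw [show 1 - (1 - x * y) * z = 1 - z + x * z * y by ring]
    ring
  have e2 : ∫ y in (0 : ℝ)..1, F4 n (x, y, z) = (1 - x) ^ n * (1 - z) ^ n *
      ∫ y in (0 : ℝ)..1, y ^ n * (1 - y) ^ n * (x * z) ^ n / (1 - z + x * z * y) ^ (n + 1) := by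
    rw [← intervalIntegral.integral_const_mul]
    refine intervalIntegral.integral_congr fun y _ => ?_
    simp only [F4, K]
    have e : ((1 - x) * (1 - y) * (1 - z)) ^ n = (1 - x) ^ n * (1 - y) ^ n * (1 - z) ^ n := by
      rw [mul_pow, mul_pow]
    rw [show 1 - (1 - x * y) * z = 1 - z + x * z * y by ring, one_div, inv_pow,
      show x * y * z = y * (x * z) by ring, mul_pow y, e]
    ring
  rw [e1, e2, h]

/-- the substitution `w = (1 - z) / (1 - (1 - q) z)` -/
lemma subst (n : ℕ) {q : ℝ} (hq : 0 < q) :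
    ∫ z in (0 : ℝ)..1, (1 - z) ^ n / (1 - (1 - q) * z) =
      ∫ z in (0 : ℝ)..1, q ^ n * z ^ n / (1 - (1 - q) * z) ^ (n + 1) := by
  have hpos : ∀ z ∈ Icc (0 : ℝ) 1, 0 < 1 - (1 - q) * z := fun z hz => by
    rcases hz.1.eq_or_lt with h | h
    · rw [← h]; simp
    · nlinarith [hz.2, mul_pos hq h]
  have h01 : uIcc (0 : ℝ) 1 = Icc 0 1 := uIcc_of_le zero_le_one
  have hden : ∀ z : ℝ, HasDerivAt (fun z => 1 - (1 - q) * z) (-(1 - q)) z := fun z => by
    simpa using ((hasDerivAt_id z).const_mul (1 - q)).const_sub 1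
  have hmem : ∀ z ∈ Icc (0 : ℝ) 1, (1 - z) / (1 - (1 - q) * z) ∈ Icc (0 : ℝ) 1 := fun z hz => by
    have h1 := hpos z hz
    refine ⟨div_nonneg (by linarith [hz.2]) h1.le, ?_⟩
    rw [div_le_one h1]
    nlinarith [mul_nonneg hq.le hz.1]
  have h := intervalIntegral.integral_comp_mul_deriv' (a := (0 : ℝ)) (b := 1)
    (f := fun z => (1 - z) / (1 - (1 - q) * z)) (f' := fun z => -q / (1 - (1 - q) * z) ^ 2)
    (g := fun w => (1 - w) ^ n / (1 - (1 - q) * w))
    (by
      intro z hz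
      rw [h01] at hz
      have hne := (hpos z hz).ne'
      have h2 : HasDerivAt (fun z : ℝ => 1 - z) (-1) z := by
        simpa using (hasDerivAt_id z).const_sub 1
      refine (h2.fun_div (hden z) hne).congr_deriv ?_
      congr 1
      ring)
    (by
      rw [h01]
      refine ContinuousOn.div continuousOn_const (by fun_prop) fun z hz => ?_
      exact pow_ne_zero _ (hpos z hz).ne')
    (by
      rw [h01]
      refine ContinuousOn.div (by fun_prop) (by fun_prop) ?_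
      rintro w ⟨z, hz, rfl⟩
      exact (hpos _ (hmem z hz)).ne')
  simp only [sub_zero, mul_zero, mul_one, sub_self, zero_div, div_one] at h
  have h' : ∫ w in (1 : ℝ)..0, (1 - w) ^ n / (1 - (1 - q) * w) =
      -∫ w in (0 : ℝ)..1, (1 - w) ^ n / (1 - (1 - q) * w) := intervalIntegral.integral_symm _ _
  rw [h'] at h
  rw [← neg_inj, ← h, ← intervalIntegral.integral_neg]
  refine intervalIntegral.integral_congr fun z hz => ?_
  rw [h01] at hz
  have hne := (hpos z hz).ne'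
  simp only [Function.comp]
  set D := 1 - (1 - q) * z with hD
  have e1 : 1 - (1 - z) / D = q * z / D := by
    rw [eq_div_iff hne, sub_mul, div_mul_cancel₀ _ hne]
    rw [hD]
    ring
  have e2 : 1 - (1 - q) * ((1 - z) / D) = q / D := by
    rw [eq_div_iff hne, sub_mul, mul_assoc, div_mul_cancel₀ _ hne]
    rw [hD]
    ring
  rw [e1, e2, div_pow, mul_pow]
  have hq' := hq.ne'
  field_simp
  ring

lemma step23 (n : ℕ) : ∫ p, F2 n p ∂T = ∫ p, F3 n p ∂T := by
  refine fub_z (F2_int n) (F3_int n) fun x hx y hy => ?_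
  have h := subst n (q := x * y) (mul_pos hx.1 hy.1)
  have e1 : ∫ z in (0 : ℝ)..1, F3 n (x, y, z) =
      (1 - x) ^ n * (pl n).eval y * ∫ z in (0 : ℝ)..1, (1 - z) ^ n / (1 - (1 - x * y) * z) := by
    rw [← intervalIntegral.integral_const_mul]
    refine intervalIntegral.integral_congr fun z _ => ?_
    simp only [F3, K]
    ring
  have e2 : ∫ z in (0 : ℝ)..1, F2 n (x, y, z) = (1 - x) ^ n * (pl n).eval y *
      ∫ z in (0 : ℝ)..1, (x * y) ^ n * z ^ n / (1 - (1 - x * y) * z) ^ (n + 1) := by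
    rw [← intervalIntegral.integral_const_mul]
    refine intervalIntegral.integral_congr fun z _ => ?_
    simp only [F2, K]
    rw [one_div, inv_pow, mul_pow (x * y)]
    ring
  rw [e1, e2, h]

lemma F4_eq (n : ℕ) {x y z : ℝ} (hx : x ∈ Ioo (0 : ℝ) 1) (hy : y ∈ Ioo (0 : ℝ) 1) (hz : z ∈ Ioo (0 : ℝ) 1) :
    F4 n (x, y, z) = beu x y z ^ n / (1 - (1 - x * y) * z) := by
  have hd := den_pos hx hy hz
  unfold F4 beu K
  simp only
  rw [← mul_pow, show x * y * z * ((1 - x) * (1 - y) * (1 - z)) = x * y * z * (1 - x) * (1 - y) * (1 - z) by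
    ring, div_pow (x * y * z * (1 - x) * (1 - y) * (1 - z)), one_div, inv_pow, pow_succ]
  field_simp

end Pool.Agent.E8helper20.AZ
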