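import Pool.Agent.E8helper20.AZ.Beu

/-!
# Project AZ, part BEU: the end of the proof
-/

set_option autoImplicit false

namespace Pool.Agent.E8helper20.AZ

open MeasureTheory Set intervalIntegral
open Pool.Agent.E8helper42.AZ
open scoped Nat

/-! ### integrals of powers and logarithms -/

lemma int_pow (k : ℕ) : ∫ x, x ^ k ∂U = 1 / ((k : ℝ) + 1) := by
  rw [int_U, integral_pow]
  simp

lemma pow_int (k : ℕ) : Integrable (fun x : ℝ => x ^ k) U := by
  have h : IntervalIntegrable (fun x : ℝ => x ^ k) volume 0 1 := (continuous_pow k).intervalIntegrable 0 1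
  rw [intervalIntegrable_iff_integrableOn_Ioo_of_le zero_le_one] at h
  exact h

lemma log_pow_ii (k : ℕ) : IntervalIntegrable (fun x : ℝ => Real.log x * x ^ k) volume 0 1 :=
  intervalIntegrable_log'.mul_continuousOn (continuous_pow k).continuousOn

lemma log_pow_int (k : ℕ) : Integrable (fun x : ℝ => Real.log x * x ^ k) U := by
  have h := log_pow_ii k
  rw [intervalIntegrable_iff_integrableOn_Ioo_of_le zero_le_one] at h
  exact h

lemma int_log_pow (k : ℕ) : ∫ x, Real.log x * x ^ k ∂U = -(1 / ((k : ℝ) + 1) ^ 2) := by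
  rw [int_U]
  have hk : (k : ℝ) + 1 ≠ 0 := by positivity
  have h := intervalIntegral.integral_eq_sub_of_hasDerivAt_of_le (a := 0) (b := 1) zero_le_one
    (f := fun x : ℝ => x ^ k / ((k : ℝ) + 1) * (x * Real.log x) - x ^ (k + 1) / ((k : ℝ) + 1) ^ 2)
    (f' := fun x => Real.log x * x ^ k)
    (((continuous_pow k).div_const _).mul Real.continuous_mul_log |>.sub
      ((continuous_pow (k + 1)).div_const _)).continuousOn
    (by
      intro x hx
      have hx0 : x ≠ 0 := hx.1.ne'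
      have h1 : HasDerivAt (fun x : ℝ => x ^ (k + 1) / ((k : ℝ) + 1) * Real.log x -
          x ^ (k + 1) / ((k : ℝ) + 1) ^ 2) (Real.log x * x ^ k) x := by
        have a := ((hasDerivAt_pow (k + 1) x).div_const ((k : ℝ) + 1)).mul (Real.hasDerivAt_log hx0)
        have b := (hasDerivAt_pow (k + 1) x).div_const (((k : ℝ) + 1) ^ 2)
        refine (a.sub b).congr_deriv ?_
        simp only [Nat.add_sub_cancel]
        push_cast
        field_simp
        ring
      refine h1.congr_of_eventuallyEq (Filter.Eventually.of_forall fun x => ?_)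
      simp only
      rw [pow_succ]
      ring)
    (log_pow_ii k)
  rw [h]
  simp

lemma pl_pow (n m : ℕ) (x : ℝ) : x ^ m * (pl n).eval x =
    ∑ i ∈ Finset.range (n + 1), (pl n).coeff i * x ^ (m + i) := by
  rw [pl_eval, Finset.mul_sum]
  refine Finset.sum_congr rfl fun i _ => ?_
  rw [pow_add]
  ring

lemma pl_pow_int (n m : ℕ) : Integrable (fun x : ℝ => x ^ m * (pl n).eval x) U := by
  simp only [pl_pow]
  exact integrable_finsetSum _ fun i _ => (pow_int (m + i)).const_mul _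

lemma int_pl_pow (n m : ℕ) : ∫ x, x ^ m * (pl n).eval x ∂U = rho n ((m : ℝ) + 1) := by
  simp only [pl_pow]
  rw [integral_finsetSum _ fun i _ => (pow_int (m + i)).const_mul _]
  unfold rho
  refine Finset.sum_congr rfl fun i _ => ?_
  rw [MeasureTheory.integral_const_mul, int_pow]
  push_cast
  rw [show (m : ℝ) + i + 1 = m + 1 + i by ring]
  ring

lemma log_pl_eq (n m : ℕ) (x : ℝ) : Real.log x * (x ^ m * (pl n).eval x) =
    ∑ i ∈ Finset.range (n + 1), (pl n).coeff i * (Real.log x * x ^ (m + i)) := by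
  rw [pl_pow, Finset.mul_sum]
  refine Finset.sum_congr rfl fun i _ => ?_
  ring

lemma log_pl_int (n m : ℕ) : Integrable (fun x : ℝ => Real.log x * (x ^ m * (pl n).eval x)) U := by
  simp only [log_pl_eq]
  exact integrable_finsetSum _ fun i _ => (log_pow_int (m + i)).const_mul _

lemma int_log_pl (n m : ℕ) : ∫ x, Real.log x * (x ^ m * (pl n).eval x) ∂U = -rho' n ((m : ℝ) + 1) := by
  simp only [log_pl_eq]
  rw [integral_finsetSum _ fun i _ => (log_pow_int (m + i)).const_mul _]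
  unfold rho'
  rw [← Finset.sum_neg_distrib]
  refine Finset.sum_congr rfl fun i _ => ?_
  rw [MeasureTheory.integral_const_mul, int_log_pow]
  push_cast
  rw [show (m : ℝ) + i + 1 = m + 1 + i by ring]
  ring

/-! ### the series -/

/-- the terms -/
noncomputable def Fm (n m : ℕ) (p : ℝ × ℝ) : ℝ :=
  -((Real.log p.1 * (p.1 ^ m * (pl n).eval p.1)) * (p.2 ^ m * (pl n).eval p.2) +
    (p.1 ^ m * (pl n).eval p.1) * (Real.log p.2 * (p.2 ^ m * (pl n).eval p.2)))

lemma Fm_int (n m : ℕ) : Integrable (Fm n m) (U.prod U) :=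
  (((log_pl_int n m).mul_prod (pl_pow_int n m)).add ((pl_pow_int n m).mul_prod (log_pl_int n m))).neg

lemma int_Fm (n m : ℕ) : ∫ p, Fm n m p ∂(U.prod U) = 2 * rho n ((m : ℝ) + 1) * rho' n ((m : ℝ) + 1) := by
  unfold Fm
  rw [MeasureTheory.integral_neg, MeasureTheory.integral_add ((log_pl_int n m).mul_prod (pl_pow_int n m))
    ((pl_pow_int n m).mul_prod (log_pl_int n m)),
    integral_prod_mul (fun x => Real.log x * (x ^ m * (pl n).eval x)) (fun x => x ^ m * (pl n).eval x),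
    integral_prod_mul (fun x => x ^ m * (pl n).eval x) (fun x => Real.log x * (x ^ m * (pl n).eval x)),
    int_log_pl, int_pl_pow]
  ring

/-- the majorant of the terms -/
noncomputable def Mm (C : ℝ) (m : ℕ) (p : ℝ × ℝ) : ℝ :=
  -(C * C) * ((Real.log p.1 * p.1 ^ m) * p.2 ^ m + p.1 ^ m * (Real.log p.2 * p.2 ^ m))

lemma Mm_int (C : ℝ) (m : ℕ) : Integrable (Mm C m) (U.prod U) :=
  (((log_pow_int m).mul_prod (pow_int m)).add ((pow_int m).mul_prod (log_pow_int m))).const_mul _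

lemma int_Mm (C : ℝ) (m : ℕ) : ∫ p, Mm C m p ∂(U.prod U) = C * C * (2 / ((m : ℝ) + 1) ^ 3) := by
  unfold Mm
  have hm : (m : ℝ) + 1 ≠ 0 := by positivity
  rw [MeasureTheory.integral_const_mul, MeasureTheory.integral_add ((log_pow_int m).mul_prod (pow_int m))
    ((pow_int m).mul_prod (log_pow_int m)),
    integral_prod_mul (fun x => Real.log x * x ^ m) (fun x => x ^ m),
    integral_prod_mul (fun x => x ^ m) (fun x => Real.log x * x ^ m), int_log_pow, int_pow]
  field_simp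
  ring

lemma Fm_le (n m : ℕ) {C : ℝ} (hC0 : 0 ≤ C) (hC : ∀ x ∈ Ioo (0 : ℝ) 1, |(pl n).eval x| ≤ C) :
    ∀ᵐ p ∂(U.prod U), ‖Fm n m p‖ ≤ Mm C m p := by
  filter_upwards [ae_S] with p hp
  obtain ⟨x, y⟩ := p
  obtain ⟨hx, hy⟩ := hp
  simp only at hx hy
  have e1 : Fm n m (x, y) = -(Real.log x + Real.log y) * (x ^ m * y ^ m) * ((pl n).eval x * (pl n).eval y) := by
    unfold Fm
    simp only
    ring
  have e2 : Mm C m (x, y) = -(Real.log x + Real.log y) * (x ^ m * y ^ m) * (C * C) := by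
    unfold Mm
    simp only
    ring
  have l1 : Real.log x ≤ 0 := Real.log_nonpos hx.1.le hx.2.le
  have l2 : Real.log y ≤ 0 := Real.log_nonpos hy.1.le hy.2.le
  have h0 : 0 ≤ -(Real.log x + Real.log y) * (x ^ m * y ^ m) :=
    mul_nonneg (by linarith) (mul_nonneg (pow_nonneg hx.1.le _) (pow_nonneg hy.1.le _))
  rw [e1, e2, Real.norm_eq_abs, abs_mul, abs_of_nonneg h0, abs_mul]
  exact mul_le_mul_of_nonneg_left (mul_le_mul (hC x hx) (hC y hy) (abs_nonneg _) hC0) h0

lemma sum_cube : Summable fun m : ℕ => 2 / ((m : ℝ) + 1) ^ 3 := by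
  have h := (summable_nat_add_iff 1).2 (Real.summable_one_div_nat_pow.2 (by norm_num : 1 < 3))
  refine (h.mul_left 2).congr fun m => ?_
  push_cast
  ring

lemma norm_sum (n : ℕ) : Summable fun m => ∫ p, ‖Fm n m p‖ ∂(U.prod U) := by
  obtain ⟨C, hC0, hC⟩ := pl_bdd n
  refine Summable.of_nonneg_of_le (fun m => integral_nonneg fun p => norm_nonneg _)
    (fun m => (integral_mono_ae (Fm_int n m).norm (Mm_int C m) (Fm_le n m hC0 hC)).trans_eq (int_Mm C m)) ?_
  exact sum_cube.mul_left _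

/-- the sum of the series -/
noncomputable def Gs (n : ℕ) (p : ℝ × ℝ) : ℝ :=
  (pl n).eval p.1 * (pl n).eval p.2 * (-Real.log (p.1 * p.2) / (1 - p.1 * p.2))

lemma Gs_eq (n : ℕ) {x y : ℝ} (hx : x ∈ Ioo (0 : ℝ) 1) (hy : y ∈ Ioo (0 : ℝ) 1) :
    ∑' m, Fm n m (x, y) = Gs n (x, y) := by
  have h0 : 0 ≤ x * y := mul_nonneg hx.1.le hy.1.le
  have h1 : x * y < 1 := by nlinarith [hx.1, hx.2, hy.1, hy.2]
  have h := (hasSum_geometric_of_lt_one h0 h1).mul_left
    ((pl n).eval x * (pl n).eval y * (-Real.log (x * y)))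
  have e : ∀ m, Fm n m (x, y) = (pl n).eval x * (pl n).eval y * (-Real.log (x * y)) * (x * y) ^ m := fun m => by
    unfold Fm
    simp only
    rw [Real.log_mul hx.1.ne' hy.1.ne', mul_pow]
    ring
  simp only [e]
  rw [h.tsum_eq]
  unfold Gs
  simp only
  ring

lemma int_Gs (n : ℕ) : ∫ p, Gs n p ∂(U.prod U) = 2 * Jn n := by
  have h := integral_tsum_of_summable_integral_norm (Fm_int n) (norm_sum n)
  rw [Jn_eq]
  simp only [int_Fm] at h
  rw [h]
  refine integral_congr_ae ?_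
  filter_upwards [ae_S] with p hp
  obtain ⟨x, y⟩ := p
  exact (Gs_eq n hp.1 hp.2).symm

/-! ### the first integral -/

lemma int_K {x y : ℝ} (hx : x ∈ Ioo (0 : ℝ) 1) (hy : y ∈ Ioo (0 : ℝ) 1) :
    ∫ z in (0 : ℝ)..1, K (x, y, z) = -Real.log (x * y) / (1 - x * y) := by
  have h0 : 0 < x * y := mul_pos hx.1 hy.1
  have h1 : x * y < 1 := by nlinarith [hx.1, hx.2, hy.1, hy.2]
  set q := x * y with hq
  have hpos : ∀ z ∈ Icc (0 : ℝ) 1, 0 < 1 - (1 - q) * z := fun z hz => by
    nlinarith [hz.1, hz.2, mul_nonneg (sub_nonneg.2 h1.le) (sub_nonneg.2 hz.2)]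
  have h01 : uIcc (0 : ℝ) 1 = Icc 0 1 := uIcc_of_le zero_le_one
  have hne : (1 : ℝ) - q ≠ 0 := by linarith
  have h := intervalIntegral.integral_eq_sub_of_hasDerivAt (a := (0 : ℝ)) (b := 1)
    (f := fun z => -Real.log (1 - (1 - q) * z) / (1 - q)) (f' := fun z => 1 / (1 - (1 - q) * z))
    (by
      intro z hz
      rw [h01] at hz
      have hz' := (hpos z hz).ne'
      have a : HasDerivAt (fun z => 1 - (1 - q) * z) (-(1 - q)) z := by
        simpa using ((hasDerivAt_id z).const_mul (1 - q)).const_sub 1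
      refine ((a.log hz').fun_neg.div_const (1 - q)).congr_deriv ?_
      field_simp)
    (by
      refine ContinuousOn.intervalIntegrable ?_
      rw [h01]
      refine ContinuousOn.div continuousOn_const (by fun_prop) fun z hz => ?_
      exact (hpos z hz).ne')
  have e : ∀ z, K (x, y, z) = 1 / (1 - (1 - q) * z) := fun z => rfl
  simp only [e]
  rw [h]
  simp

lemma int_F1 (n : ℕ) : ∫ p, F1 n p ∂T = 2 * Jn n := by
  rw [← int_Gs]
  have hmp := measurePreserving_prodAssoc U U U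
  have hi : Integrable (fun p : (ℝ × ℝ) × ℝ => F1 n (MeasurableEquiv.prodAssoc p)) ((U.prod U).prod U) :=
    (hmp.integrable_comp_emb MeasurableEquiv.prodAssoc.measurableEmbedding).2 (F1_int n)
  have h : ∫ p, F1 n p ∂T = ∫ p, F1 n (MeasurableEquiv.prodAssoc p) ∂((U.prod U).prod U) :=
    (hmp.integral_comp MeasurableEquiv.prodAssoc.measurableEmbedding _).symm
  rw [h, integral_prod _ hi]
  refine integral_congr_ae ?_
  filter_upwards [ae_S] with p hp
  obtain ⟨x, y⟩ := p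
  have e : ∀ z, F1 n (MeasurableEquiv.prodAssoc ((x, y), z)) = (pl n).eval x * (pl n).eval y * K (x, y, z) :=
    fun z => rfl
  simp only [e]
  rw [MeasureTheory.integral_const_mul, int_U, int_K hp.1 hp.2]
  rfl

lemma int_F4 (n : ℕ) : ∫ p, F4 n p ∂T = 2 * Jn n := by
  rw [← step34, ← step23, ← step12, int_F1]

/-! ### the result -/

lemma beu_mem {x y z : ℝ} (hx : x ∈ Ioo (0 : ℝ) 1) (hy : y ∈ Ioo (0 : ℝ) 1) (hz : z ∈ Ioo (0 : ℝ) 1) :
    |beu x y z| ≤ 1 := by
  have hK := K_pos hx hy hz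
  have h0 : 0 ≤ x * y * z * K (x, y, z) :=
    mul_nonneg (mul_nonneg (mul_nonneg hx.1.le hy.1.le) hz.1.le) hK.le
  have hx' : 0 ≤ 1 - x ∧ 1 - x ≤ 1 := ⟨by linarith [hx.2], by linarith [hx.1]⟩
  have hy' : 0 ≤ 1 - y ∧ 1 - y ≤ 1 := ⟨by linarith [hy.2], by linarith [hy.1]⟩
  have hz' : 0 ≤ 1 - z ∧ 1 - z ≤ 1 := ⟨by linarith [hz.2], by linarith [hz.1]⟩
  have e : beu x y z = x * y * z * K (x, y, z) * ((1 - x) * (1 - y) * (1 - z)) := by
    unfold beu K
    simp only
    ring
  have h1 : (1 - x) * (1 - y) * (1 - z) ≤ 1 := mul_le_one₀ (mul_le_one₀ hx'.2 hy'.1 hy'.2) hz'.1 hz'.2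
  have h2 : 0 ≤ (1 - x) * (1 - y) * (1 - z) := mul_nonneg (mul_nonneg hx'.1 hy'.1) hz'.1
  rw [e, abs_of_nonneg (mul_nonneg h0 h2)]
  exact mul_le_one₀ (xyzK_le hx hy hz) h2 h1

lemma beu_meas : Measurable fun p : ℝ × ℝ × ℝ => beu p.1 p.2.1 p.2.2 := by
  unfold beu
  fun_prop

/-- the integral of a power -/
lemma int_beu (n : ℕ) : ∫ p : ℝ × ℝ × ℝ, beu p.1 p.2.1 p.2.2 ^ n * K p ∂T = 2 * Jn n := by
  rw [← int_F4]
  refine integral_congr_ae ?_
  filter_upwards [ae_T] with p hp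
  obtain ⟨x, y, z⟩ := p
  rw [F4_eq n hp.1 hp.2.1 hp.2.2]
  unfold K
  simp only
  ring

lemma summ (j : ℕ) (t : ℝ) : Summable fun n : ℕ => (n : ℝ) ^ j * |t| ^ n / (n ! : ℝ) := by
  have h := (Real.summable_pow_div_factorial (Real.exp 1 * |t|)).mul_left (j ! : ℝ)
  refine Summable.of_nonneg_of_le (fun n => by positivity) (fun n => ?_) h
  have h1 := Real.pow_div_factorial_le_exp (x := (n : ℝ)) (by positivity) j
  rw [div_le_iff₀ (by positivity)] at h1
  have h2 : Real.exp (n : ℝ) = Real.exp 1 ^ n := by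
    rw [← Real.exp_nat_mul, mul_one]
  rw [h2] at h1
  calc (n : ℝ) ^ j * |t| ^ n / (n ! : ℝ) ≤ (Real.exp 1 ^ n * (j ! : ℝ)) * |t| ^ n / (n ! : ℝ) := by gcongr
    _ = (j ! : ℝ) * ((Real.exp 1 * |t|) ^ n / (n ! : ℝ)) := by
      rw [mul_pow]
      ring

theorem t_BEU : S_BEU := by
  refine ⟨fun n => ?_, fun j t => ?_⟩
  · rw [← T_eq, ← int_beu]
    refine integral_congr_ae (Filter.Eventually.of_forall fun p => ?_)
    unfold K
    simp only
    ring
  · rw [← T_eq]
    set f : ℕ → ℝ × ℝ × ℝ → ℝ := fun n p =>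
      (n : ℝ) ^ j * ((t : ℝ) * beu p.1 p.2.1 p.2.2) ^ n / (n.factorial : ℝ) * K p with hf
    have hbd : ∀ n, ∀ x ∈ Ioo (0 : ℝ) 1, ∀ y ∈ Ioo (0 : ℝ) 1, ∀ z ∈ Ioo (0 : ℝ) 1,
        |f n (x, y, z)| ≤ (n : ℝ) ^ j * |(t : ℝ)| ^ n / (n ! : ℝ) * K (x, y, z) := by
      intro n x hx y hy z hz
      have hK := K_pos hx hy hz
      have hb := beu_mem hx hy hz
      simp only [hf]
      rw [abs_mul, abs_of_pos hK, abs_div, abs_mul, abs_pow, abs_pow, abs_mul, Nat.abs_cast, Nat.abs_cast,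
        mul_pow]
      have h1 : |beu x y z| ^ n ≤ 1 := pow_le_one₀ (abs_nonneg _) hb
      have h2 : |(t : ℝ)| ^ n * |beu x y z| ^ n ≤ |(t : ℝ)| ^ n := by
        calc _ ≤ |(t : ℝ)| ^ n * 1 := mul_le_mul_of_nonneg_left h1 (by positivity)
          _ = _ := mul_one _
      gcongr
    have hmeas : ∀ n, Measurable (f n) := fun n =>
      (((beu_meas.const_mul (t : ℝ)).pow_const n).const_mul ((n : ℝ) ^ j) |>.div_const _).mul K_meas
    have hint : ∀ n, Integrable (f n) T := fun n => dom (hmeas n) _ (hbd n)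
    have hsum : Summable fun n => ∫ p, ‖f n p‖ ∂T := by
      refine Summable.of_nonneg_of_le (fun n => integral_nonneg fun p => norm_nonneg _) (fun n => ?_)
        ((summ j (t : ℝ)).mul_right (∫ p, K p ∂T))
      rw [← MeasureTheory.integral_const_mul]
      refine integral_mono_ae (hint n).norm (K_int.const_mul _) ?_
      filter_upwards [ae_T] with p hp
      obtain ⟨x, y, z⟩ := p
      exact hbd n x hp.1 y hp.2.1 z hp.2.2
    have h := integral_tsum_of_summable_integral_norm hint hsum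
    have e1 : ∀ n, ∫ p, f n p ∂T = 2 * ((n : ℝ) ^ j * Jn n * (t : ℝ) ^ n / (n.factorial : ℝ)) := by
      intro n
      have : ∀ p : ℝ × ℝ × ℝ, f n p = ((n : ℝ) ^ j * (t : ℝ) ^ n / (n.factorial : ℝ)) *
          (beu p.1 p.2.1 p.2.2 ^ n * K p) := fun p => by
        simp only [hf, mul_pow]
        ring
      simp only [this]
      rw [MeasureTheory.integral_const_mul, int_beu]
      ring
    simp only [e1] at h
    rw [tsum_mul_left] at h
    unfold Ij
    rw [h]
    refine integral_congr_ae (Filter.Eventually.of_forall fun p => ?_)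
    simp only [hf]
    rw [tsum_mul_right]
    unfold K
    ring

end Pool.Agent.E8helper20.AZ
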