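import Pool.Agent.E8helper20.AZ.Leg

/-!
# Project AZ, part BEU: the cube and Fubini's theorem
-/

set_option autoImplicit false

namespace Pool.Agent.E8helper20.AZ

open MeasureTheory Set intervalIntegral
open Pool.Agent.E8helper42.AZ
open scoped Nat

/-- Lebesgue measure on `(0, 1)` -/
noncomputable def U : Measure ℝ := volume.restrict (Ioo (0 : ℝ) 1)

instance : IsProbabilityMeasure U := ⟨by simp [U]⟩

/-- Lebesgue measure on the cube -/
noncomputable def T : Measure (ℝ × ℝ × ℝ) := U.prod (U.prod U)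

instance : IsProbabilityMeasure T := by unfold T; infer_instance

lemma S_eq : U.prod U = (volume : Measure (ℝ × ℝ)).restrict (Ioo 0 1 ×ˢ Ioo 0 1) := by
  unfold U
  rw [Measure.prod_restrict]
  rfl

lemma T_eq : T = (volume : Measure (ℝ × ℝ × ℝ)).restrict (Ioo 0 1 ×ˢ Ioo 0 1 ×ˢ Ioo 0 1) := by
  unfold T
  rw [S_eq, U, Measure.prod_restrict]
  rfl

lemma ae_U : ∀ᵐ x ∂U, x ∈ Ioo (0 : ℝ) 1 := ae_restrict_mem measurableSet_Ioo

lemma ae_S : ∀ᵐ p ∂(U.prod U), p.1 ∈ Ioo (0 : ℝ) 1 ∧ p.2 ∈ Ioo (0 : ℝ) 1 := by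
  rw [S_eq]
  exact ae_restrict_mem (measurableSet_Ioo.prod measurableSet_Ioo)

lemma ae_T : ∀ᵐ p ∂T, p.1 ∈ Ioo (0 : ℝ) 1 ∧ p.2.1 ∈ Ioo (0 : ℝ) 1 ∧ p.2.2 ∈ Ioo (0 : ℝ) 1 := by
  rw [T_eq]
  exact ae_restrict_mem (measurableSet_Ioo.prod (measurableSet_Ioo.prod measurableSet_Ioo))

lemma int_U (f : ℝ → ℝ) : ∫ x, f x ∂U = ∫ x in (0 : ℝ)..1, f x := by
  rw [intervalIntegral.integral_of_le zero_le_one, integral_Ioc_eq_integral_Ioo]
  rfl

lemma fub_x {F G : ℝ × ℝ × ℝ → ℝ} (hF : Integrable F T) (hG : Integrable G T)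
    (h : ∀ y ∈ Ioo (0 : ℝ) 1, ∀ z ∈ Ioo (0 : ℝ) 1,
      ∫ x in (0 : ℝ)..1, F (x, y, z) = ∫ x in (0 : ℝ)..1, G (x, y, z)) : ∫ p, F p ∂T = ∫ p, G p ∂T := by
  unfold T at *
  rw [integral_prod_symm _ hF, integral_prod_symm _ hG]
  refine integral_congr_ae ?_
  filter_upwards [ae_S] with p hp
  rw [int_U, int_U]
  exact h p.1 hp.1 p.2 hp.2

lemma fub_z {F G : ℝ × ℝ × ℝ → ℝ} (hF : Integrable F T) (hG : Integrable G T)
    (h : ∀ x ∈ Ioo (0 : ℝ) 1, ∀ y ∈ Ioo (0 : ℝ) 1,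
      ∫ z in (0 : ℝ)..1, F (x, y, z) = ∫ z in (0 : ℝ)..1, G (x, y, z)) : ∫ p, F p ∂T = ∫ p, G p ∂T := by
  unfold T at *
  rw [integral_prod _ hF, integral_prod _ hG]
  refine integral_congr_ae ?_
  filter_upwards [ae_U, hF.prod_right_ae, hG.prod_right_ae] with x hx h1 h2
  rw [integral_prod _ h1, integral_prod _ h2]
  refine integral_congr_ae ?_
  filter_upwards [ae_U] with y hy
  rw [int_U, int_U]
  exact h x hx y hy

lemma fub_y {F G : ℝ × ℝ × ℝ → ℝ} (hF : Integrable F T) (hG : Integrable G T)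
    (h : ∀ x ∈ Ioo (0 : ℝ) 1, ∀ z ∈ Ioo (0 : ℝ) 1,
      ∫ y in (0 : ℝ)..1, F (x, y, z) = ∫ y in (0 : ℝ)..1, G (x, y, z)) : ∫ p, F p ∂T = ∫ p, G p ∂T := by
  unfold T at *
  rw [integral_prod _ hF, integral_prod _ hG]
  refine integral_congr_ae ?_
  filter_upwards [ae_U, hF.prod_right_ae, hG.prod_right_ae] with x hx h1 h2
  rw [integral_prod_symm _ h1, integral_prod_symm _ h2]
  refine integral_congr_ae ?_
  filter_upwards [ae_U] with z hz
  rw [int_U, int_U]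
  exact h x hx z hz

/-! ### the kernel -/

/-- `1 / (1 - (1 - x y) z)` -/
noncomputable def K (p : ℝ × ℝ × ℝ) : ℝ := 1 / (1 - (1 - p.1 * p.2.1) * p.2.2)

lemma K_meas : Measurable K := by unfold K; fun_prop

lemma den_pos {x y z : ℝ} (hx : x ∈ Ioo (0 : ℝ) 1) (hy : y ∈ Ioo (0 : ℝ) 1) (hz : z ∈ Ioo (0 : ℝ) 1) :
    0 < 1 - (1 - x * y) * z := by
  have h1 : 0 < x * y := mul_pos hx.1 hy.1
  have h2 : 0 < 1 - z := by linarith [hz.2]
  nlinarith [mul_pos h1 hz.1]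

lemma den_ge {x y z : ℝ} (hz : z ∈ Ioo (0 : ℝ) 1) : x * y * z ≤ 1 - (1 - x * y) * z := by
  nlinarith [hz.2]

lemma rpow_int : Integrable (fun x : ℝ => x ^ (-(1 / 2) : ℝ)) U := by
  have h := intervalIntegral.intervalIntegrable_rpow' (a := 0) (b := 1) (r := (-(1 / 2) : ℝ)) (by norm_num)
  rw [intervalIntegrable_iff_integrableOn_Ioo_of_le zero_le_one] at h
  exact h

lemma rpow_int' : Integrable (fun x : ℝ => (1 - x) ^ (-(1 / 2) : ℝ)) U := by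
  have h := (intervalIntegral.intervalIntegrable_rpow' (a := 0) (b := 1) (r := (-(1 / 2) : ℝ))
    (by norm_num)).comp_sub_left 1
  rw [sub_zero, sub_self] at h
  have h2 := h.symm
  rw [intervalIntegrable_iff_integrableOn_Ioo_of_le zero_le_one] at h2
  exact h2

/-- the majorant -/
noncomputable def maj (p : ℝ × ℝ × ℝ) : ℝ :=
  p.1 ^ (-(1 / 2) : ℝ) * (p.2.1 ^ (-(1 / 2) : ℝ) *
    (p.2.2 ^ (-(1 / 2) : ℝ) + (1 - p.2.2) ^ (-(1 / 2) : ℝ)))

lemma maj_int : Integrable maj T :=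
  rpow_int.mul_prod (rpow_int.mul_prod (rpow_int.add rpow_int'))

lemma K_le {x y z : ℝ} (hx : x ∈ Ioo (0 : ℝ) 1) (hy : y ∈ Ioo (0 : ℝ) 1) (hz : z ∈ Ioo (0 : ℝ) 1) :
    K (x, y, z) ≤ maj (x, y, z) := by
  have hx0 := hx.1
  have hy0 := hy.1
  have hz0 := hz.1
  have hz1 : 0 < 1 - z := by linarith [hz.2]
  have hd := den_pos hx hy hz
  have e : ∀ {t : ℝ}, 0 < t → t ^ (-(1 / 2) : ℝ) = 1 / Real.sqrt t := fun {t} ht => by
    rw [Real.rpow_neg ht.le, Real.sqrt_eq_rpow]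
    exact (one_div _).symm
  unfold K maj
  simp only
  rw [e hx0, e hy0, e hz0, e hz1]
  set a := Real.sqrt x with ha
  set b := Real.sqrt y with hb
  set c := Real.sqrt z with hc
  set d := Real.sqrt (1 - z) with hd'
  have ha0 : 0 < a := Real.sqrt_pos.2 hx0
  have hb0 : 0 < b := Real.sqrt_pos.2 hy0
  have hc0 : 0 < c := Real.sqrt_pos.2 hz0
  have hd0 : 0 < d := Real.sqrt_pos.2 hz1
  have ha2 : a ^ 2 = x := Real.sq_sqrt hx0.le
  have hb2 : b ^ 2 = y := Real.sq_sqrt hy0.le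
  have hc2 : c ^ 2 = z := Real.sq_sqrt hz0.le
  have hd2 : d ^ 2 = 1 - z := Real.sq_sqrt hz1.le
  have key : 1 - (1 - x * y) * z = d ^ 2 + (a * b * c) ^ 2 := by
    rw [mul_pow, mul_pow, ha2, hb2, hc2, hd2]
    ring
  rw [key]
  have h1 : a * b * c * d ≤ d ^ 2 + (a * b * c) ^ 2 := by nlinarith [sq_nonneg (d - a * b * c), sq_nonneg (d + a * b * c)]
  have hcd : 1 ≤ c + d := by
    have : c ^ 2 + d ^ 2 = 1 := by rw [hc2, hd2]; ring
    nlinarith [mul_pos hc0 hd0]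
  have h2 : 1 / a * (1 / b * (1 / c + 1 / d)) = (c + d) / (a * b * c * d) := by
    field_simp
    ring
  rw [h2, div_le_div_iff₀ (by positivity) (by positivity)]
  have h3 : 0 < d ^ 2 + (a * b * c) ^ 2 := by positivity
  nlinarith [mul_le_mul_of_nonneg_right hcd h3.le]

lemma K_int : Integrable K T := by
  refine maj_int.mono' K_meas.aestronglyMeasurable ?_
  filter_upwards [ae_T] with p hp
  obtain ⟨x, y, z⟩ := p
  have h := K_le hp.1 hp.2.1 hp.2.2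
  have hpos : 0 ≤ K (x, y, z) := by
    have := den_pos hp.1 hp.2.1 hp.2.2
    unfold K
    positivity
  rw [Real.norm_of_nonneg hpos]
  exact h

/-- domination by the kernel -/
lemma dom {F : ℝ × ℝ × ℝ → ℝ} (hm : Measurable F) (C : ℝ)
    (h : ∀ x ∈ Ioo (0 : ℝ) 1, ∀ y ∈ Ioo (0 : ℝ) 1, ∀ z ∈ Ioo (0 : ℝ) 1, |F (x, y, z)| ≤ C * K (x, y, z)) :
    Integrable F T := by
  refine (K_int.const_mul C).mono' hm.aestronglyMeasurable ?_
  filter_upwards [ae_T] with p hp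
  obtain ⟨x, y, z⟩ := p
  exact h x hp.1 y hp.2.1 z hp.2.2

end Pool.Agent.E8helper20.AZ
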