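import Pool.Agent.E8helper42.AZ.Stm

/-!
# Project AZ, part BEU: shifted Legendre polynomials and integration by parts
-/

set_option autoImplicit false

namespace Pool.Agent.E8helper20.AZ

open MeasureTheory Set intervalIntegral
open Pool.Agent.E8helper42.AZ
open scoped Nat

/-- `x ^ n (1 - x) ^ n` -/
noncomputable def Wp (n : ℕ) : Polynomial ℝ := Polynomial.X ^ n * (1 - Polynomial.X) ^ n

/-- the shifted Legendre polynomial -/
noncomputable def pl (n : ℕ) : Polynomial ℝ := (Polynomial.shiftedLegendre n).map (Int.castRingHom ℝ)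

lemma fac_pl (n : ℕ) : Polynomial.C ((n ! : ℕ) : ℝ) * pl n = Polynomial.derivative^[n] (Wp n) := by
  have h := congrArg (Polynomial.map (Int.castRingHom ℝ)) (Polynomial.factorial_mul_shiftedLegendre_eq n)
  rw [Polynomial.map_mul, ← Polynomial.iterate_derivative_map] at h
  simp only [Polynomial.map_mul, Polynomial.map_pow, Polynomial.map_sub, Polynomial.map_X,
    Polynomial.map_one, Polynomial.map_natCast] at h
  unfold pl Wp
  rw [← h]
  simp

lemma Wp_dvd (n j : ℕ) : (Polynomial.X * (1 - Polynomial.X)) ^ (n - j) ∣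
    Polynomial.derivative^[j] (Wp n) := by
  unfold Wp
  rw [← mul_pow]
  exact Polynomial.pow_sub_dvd_iterate_derivative_pow _ n j

lemma Wp_zero {n j : ℕ} (hj : j < n) : (Polynomial.derivative^[j] (Wp n)).eval 0 = 0 := by
  obtain ⟨q, hq⟩ := Wp_dvd n j
  have : n - j ≠ 0 := by omega
  rw [hq]
  simp [this]

lemma Wp_one {n j : ℕ} (hj : j < n) : (Polynomial.derivative^[j] (Wp n)).eval 1 = 0 := by
  obtain ⟨q, hq⟩ := Wp_dvd n j
  have : n - j ≠ 0 := by omega
  rw [hq]
  simp [this]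

lemma ibp_step {n j : ℕ} (hj : j < n) (g g' : ℝ → ℝ)
    (hg : ∀ x ∈ Icc (0 : ℝ) 1, HasDerivAt g (g' x) x) (hg' : ContinuousOn g' (Icc 0 1)) :
    ∫ x in (0 : ℝ)..1, g x * (Polynomial.derivative^[j + 1] (Wp n)).eval x =
      -∫ x in (0 : ℝ)..1, g' x * (Polynomial.derivative^[j] (Wp n)).eval x := by
  have h01 : uIcc (0 : ℝ) 1 = Icc 0 1 := uIcc_of_le zero_le_one
  have h := intervalIntegral.integral_mul_deriv_eq_deriv_mul (a := (0 : ℝ)) (b := 1) (u := g) (u' := g')
    (v := fun x => (Polynomial.derivative^[j] (Wp n)).eval x)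
    (v' := fun x => (Polynomial.derivative^[j + 1] (Wp n)).eval x)
    (by rw [h01]; exact hg)
    (by
      intro x _
      rw [Function.iterate_succ_apply']
      exact Polynomial.hasDerivAt _ x)
    ((h01 ▸ hg').intervalIntegrable)
    ((Polynomial.continuous _).intervalIntegrable 0 1)
  rw [h, Wp_zero hj, Wp_one hj]
  ring

lemma ibp {n : ℕ} (g : ℕ → ℝ → ℝ) (hg : ∀ k, ∀ x ∈ Icc (0 : ℝ) 1, HasDerivAt (g k) (g (k + 1) x) x) :
    ∀ k, k ≤ n → ∫ x in (0 : ℝ)..1, g 0 x * (Polynomial.derivative^[n] (Wp n)).eval x =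
      (-1) ^ k * ∫ x in (0 : ℝ)..1, g k x * (Polynomial.derivative^[n - k] (Wp n)).eval x := by
  intro k
  induction k with
  | zero => intro _; simp
  | succ k ih =>
    intro hk
    rw [ih (by omega)]
    have e : n - k = (n - (k + 1)) + 1 := by omega
    have hc : ContinuousOn (g (k + 1)) (Icc 0 1) := fun x hx =>
      (hg (k + 1) x hx).continuousAt.continuousWithinAt
    rw [e, ibp_step (by omega) (g k) (g (k + 1)) (hg k) hc, pow_succ]
    ring

lemma ibp_pl (n : ℕ) (g : ℕ → ℝ → ℝ) (hg : ∀ k, ∀ x ∈ Icc (0 : ℝ) 1, HasDerivAt (g k) (g (k + 1) x) x) :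
    (n ! : ℝ) * ∫ x in (0 : ℝ)..1, g 0 x * (pl n).eval x =
      (-1) ^ n * ∫ x in (0 : ℝ)..1, g n x * (x ^ n * (1 - x) ^ n) := by
  have h := ibp (n := n) g hg n le_rfl
  rw [Nat.sub_self, Function.iterate_zero, id, ← fac_pl] at h
  rw [← intervalIntegral.integral_const_mul]
  have e1 : ∀ x : ℝ, (n ! : ℝ) * (g 0 x * (pl n).eval x) =
      g 0 x * (Polynomial.C ((n ! : ℕ) : ℝ) * pl n).eval x := by
    intro x
    rw [Polynomial.eval_mul, Polynomial.eval_C]
    ring
  simp only [e1]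
  rw [h]
  congr 1
  refine intervalIntegral.integral_congr fun x _ => ?_
  simp [Wp]

/-- the integral of `pl n / (a + b x)` -/
lemma int_frac (n : ℕ) {a b : ℝ} (ha : 0 < a) (hb : 0 ≤ b) :
    ∫ x in (0 : ℝ)..1, (pl n).eval x / (a + b * x) =
      ∫ x in (0 : ℝ)..1, x ^ n * (1 - x) ^ n * b ^ n / (a + b * x) ^ (n + 1) := by
  have hpos : ∀ x ∈ Icc (0 : ℝ) 1, 0 < a + b * x := fun x hx => by
    have := mul_nonneg hb hx.1
    linarith
  have h := ibp_pl n (fun k x => (-1) ^ k * (k ! : ℝ) * b ^ k / (a + b * x) ^ (k + 1)) (by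
    intro k x hx
    have hne : a + b * x ≠ 0 := (hpos x hx).ne'
    have h1 : HasDerivAt (fun x => (a + b * x) ^ (k + 1)) ((k + 1 : ℕ) * (a + b * x) ^ k * b) x := by
      have h2 : HasDerivAt (fun x => a + b * x) b x := by
        simpa using ((hasDerivAt_id x).const_mul b).const_add a
      exact (h2.fun_pow (k + 1)).congr_deriv (by simp)
    have h3 := (h1.fun_inv (pow_ne_zero _ hne)).const_mul ((-1) ^ k * (k ! : ℝ) * b ^ k)
    have h4 : (-1 : ℝ) ^ k * (k ! : ℝ) * b ^ k * (-(((k + 1 : ℕ) : ℝ) * (a + b * x) ^ k * b) /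
        ((a + b * x) ^ (k + 1)) ^ 2) = (-1) ^ (k + 1) * ((k + 1)! : ℝ) * b ^ (k + 1) /
          (a + b * x) ^ (k + 1 + 1) := by
      rw [Nat.factorial_succ]
      push_cast
      field_simp
      ring
    exact (h3.congr_deriv h4))
  have hn : (n ! : ℝ) ≠ 0 := by positivity
  apply mul_left_cancel₀ hn
  have e0 : ∫ x in (0 : ℝ)..1, (pl n).eval x / (a + b * x) =
      ∫ x in (0 : ℝ)..1, (-1) ^ 0 * ((0 ! : ℕ) : ℝ) * b ^ 0 / (a + b * x) ^ (0 + 1) * (pl n).eval x := by
    refine intervalIntegral.integral_congr fun x _ => ?_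
    simp [div_eq_mul_inv, mul_comm]
  rw [e0, h, ← intervalIntegral.integral_const_mul, ← intervalIntegral.integral_const_mul]
  refine intervalIntegral.integral_congr fun x _ => ?_
  have e1 : (-1 : ℝ) ^ n * (-1) ^ n = 1 := by
    rw [← mul_pow]; simp
  calc (-1 : ℝ) ^ n * ((-1) ^ n * (n ! : ℝ) * b ^ n / (a + b * x) ^ (n + 1) * (x ^ n * (1 - x) ^ n))
      = ((-1 : ℝ) ^ n * (-1) ^ n) * ((n ! : ℝ) * (x ^ n * (1 - x) ^ n * b ^ n / (a + b * x) ^ (n + 1))) := by
        ring
    _ = _ := by rw [e1, one_mul]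

/-! ### the rational function -/

/-- `∑ c_i / (s + i)` -/
noncomputable def rho (n : ℕ) (s : ℝ) : ℝ := ∑ i ∈ Finset.range (n + 1), (pl n).coeff i / (s + i)

lemma pl_coeff (n i : ℕ) : (pl n).coeff i = (-1) ^ i * (n.choose i : ℝ) * ((n + i).choose n : ℝ) := by
  unfold pl
  rw [Polynomial.coeff_map, Polynomial.coeff_shiftedLegendre]
  simp

lemma pl_deg (n : ℕ) : (pl n).natDegree ≤ n := by
  unfold pl
  exact (Polynomial.natDegree_map_le).trans (Polynomial.natDegree_shiftedLegendre n).le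

lemma pl_eval (n : ℕ) (x : ℝ) : (pl n).eval x = ∑ i ∈ Finset.range (n + 1), (pl n).coeff i * x ^ i :=
  Polynomial.eval_eq_sum_range' (Nat.lt_succ_of_le (pl_deg n)) x

lemma prod_base (i : ℕ) : ∏ j ∈ Finset.range i, (-(i : ℝ) + (j : ℝ)) = (-1) ^ i * (i ! : ℝ) := by
  have h : ∏ j ∈ Finset.range i, (-(i : ℝ) + (j : ℝ)) =
      ∏ j ∈ Finset.range i, (fun k : ℕ => -((k : ℝ) + 1)) (i - 1 - j) := by
    refine Finset.prod_congr rfl fun j hj => ?_
    have hj' := Finset.mem_range.1 hj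
    have e : ((i - 1 - j : ℕ) : ℝ) = (i : ℝ) - 1 - j := by
      rw [Nat.cast_sub (by omega), Nat.cast_sub (by omega)]
      simp
    simp only [e]
    ring
  rw [h, Finset.prod_range_reflect (fun k : ℕ => -((k : ℝ) + 1)) i, Finset.prod_neg]
  rw [Finset.card_range]
  congr 1
  rw [← Finset.prod_range_add_one_eq_factorial]
  push_cast
  rfl

lemma prod_erase (i m : ℕ) : ∏ j ∈ (Finset.range (i + m + 1)).erase i, (-(i : ℝ) + (j : ℝ)) =
    (-1) ^ i * (i ! : ℝ) * (m ! : ℝ) := by
  induction m with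
  | zero =>
    have : (Finset.range (i + 0 + 1)).erase i = Finset.range i := by
      ext j
      simp only [Finset.mem_erase, Finset.mem_range]
      omega
    rw [this, prod_base]
    simp
  | succ m ih =>
    have : (Finset.range (i + (m + 1) + 1)).erase i =
        insert (i + m + 1) ((Finset.range (i + m + 1)).erase i) := by
      ext j
      simp only [Finset.mem_erase, Finset.mem_range, Finset.mem_insert]
      omega
    rw [this, Finset.prod_insert (by simp), ih, Nat.factorial_succ]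
    push_cast
    ring

lemma prod_two (i n : ℕ) : ∏ j ∈ Finset.range n, (-(i : ℝ) - ((j : ℝ) + 1)) =
    (-1) ^ n * (((n + i)! : ℝ) / (i ! : ℝ)) := by
  induction n with
  | zero =>
    have : (i ! : ℝ) ≠ 0 := by positivity
    simp [this]
  | succ n ih =>
    rw [Finset.prod_range_succ, ih, show n + 1 + i = (n + i) + 1 by ring, Nat.factorial_succ]
    push_cast
    ring

/-- partial fractions, as an identity of polynomials -/
lemma pf (n : ℕ) : ∑ i ∈ Finset.range (n + 1), Polynomial.C ((pl n).coeff i) *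
      ∏ j ∈ (Finset.range (n + 1)).erase i, (Polynomial.X + Polynomial.C (j : ℝ)) =
    Polynomial.C ((-1) ^ n) * ∏ j ∈ Finset.range n, (Polynomial.X - Polynomial.C ((j : ℝ) + 1)) := by
  rw [← sub_eq_zero]
  refine Polynomial.eq_zero_of_natDegree_lt_card_of_eval_eq_zero' _
    ((Finset.range (n + 1)).image fun i : ℕ => -(i : ℝ)) ?_ ?_
  · intro r hr
    obtain ⟨i, hi, rfl⟩ := Finset.mem_image.1 hr
    have hi' : i ≤ n := by
      have := Finset.mem_range.1 hi
      omega
    simp only [Polynomial.eval_sub, Polynomial.eval_finsetSum, Polynomial.eval_mul, Polynomial.eval_C,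
      Polynomial.eval_prod, Polynomial.eval_add, Polynomial.eval_X]
    rw [Finset.sum_eq_single i]
    · have h1 : ∏ j ∈ (Finset.range (n + 1)).erase i, (-(i : ℝ) + (j : ℝ)) =
          (-1) ^ i * (i ! : ℝ) * ((n - i)! : ℝ) := by
        have := prod_erase i (n - i)
        rwa [show i + (n - i) + 1 = n + 1 by omega] at this
      have c1 : (n.choose i : ℝ) * (i ! : ℝ) * ((n - i)! : ℝ) = (n ! : ℝ) := by
        exact_mod_cast Nat.choose_mul_factorial_mul_factorial hi'
      have c2 : ((n + i).choose n : ℝ) * (n ! : ℝ) * (i ! : ℝ) = ((n + i)! : ℝ) := by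
        have := Nat.add_choose_mul_factorial_mul_factorial n i
        rw [← Nat.choose_symm_add] at this
        exact_mod_cast this
      have f1 : (i ! : ℝ) ≠ 0 := by positivity
      have s1 : ((-1 : ℝ) ^ i) * (-1) ^ i = 1 := by rw [← mul_pow]; simp
      have s2 : ((-1 : ℝ) ^ n) * (-1) ^ n = 1 := by rw [← mul_pow]; simp
      rw [h1, prod_two, pl_coeff, ← c2]
      have e3 : ((n + i).choose n : ℝ) * (n ! : ℝ) * (i ! : ℝ) / (i ! : ℝ) =
          ((n + i).choose n : ℝ) * (n ! : ℝ) := by field_simp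
      rw [e3, ← c1]
      linear_combination ((n.choose i : ℝ) * ((n + i).choose n : ℝ) * (i ! : ℝ) * ((n - i)! : ℝ)) * s1 -
        ((n.choose i : ℝ) * ((n + i).choose n : ℝ) * (i ! : ℝ) * ((n - i)! : ℝ)) * s2
    · intro j _ hji
      have : i ∈ (Finset.range (n + 1)).erase j := Finset.mem_erase.2 ⟨fun h => hji h.symm, hi⟩
      rw [Finset.prod_eq_zero this (by ring), mul_zero]
    · intro h
      exact absurd hi h
  · rw [Finset.card_image_of_injective _ (fun a b h => by simpa using h), Finset.card_range]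
    refine Nat.lt_succ_of_le ?_
    refine (Polynomial.natDegree_sub_le _ _).trans (max_le ?_ ?_)
    · refine Polynomial.natDegree_sum_le_of_forall_le _ _ fun i hi => ?_
      refine (Polynomial.natDegree_C_mul_le _ _).trans ?_
      refine (Polynomial.natDegree_prod_le _ _).trans ?_
      rw [Finset.sum_congr rfl fun (j : ℕ) _ => Polynomial.natDegree_X_add_C (j : ℝ), Finset.sum_const,
        Finset.card_erase_of_mem hi, Finset.card_range]
      simp
    · refine (Polynomial.natDegree_C_mul_le _ _).trans ?_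
      refine (Polynomial.natDegree_prod_le _ _).trans ?_
      rw [Finset.sum_congr rfl fun (j : ℕ) _ => Polynomial.natDegree_X_sub_C ((j : ℝ) + 1)]
      simp

/-- the identity of rational functions -/
lemma rho_eq (n : ℕ) {s : ℝ} (hs : 0 < s) : rho n s =
    (-1) ^ n * ((∏ j ∈ Finset.range n, (s - ((j : ℝ) + 1))) / ∏ j ∈ Finset.range (n + 1), (s + (j : ℝ))) := by
  have hne : ∀ j : ℕ, s + (j : ℝ) ≠ 0 := fun j => by positivity
  have hP : ∏ j ∈ Finset.range (n + 1), (s + (j : ℝ)) ≠ 0 := Finset.prod_ne_zero_iff.2 fun j _ => hne j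
  have h := congrArg (Polynomial.eval s) (pf n)
  simp only [Polynomial.eval_sub, Polynomial.eval_finsetSum, Polynomial.eval_mul, Polynomial.eval_C,
      Polynomial.eval_prod, Polynomial.eval_add, Polynomial.eval_X] at h
  rw [← mul_div_assoc, eq_div_iff hP, ← h]
  unfold rho
  rw [Finset.sum_mul]
  refine Finset.sum_congr rfl fun i hi => ?_
  rw [← Finset.mul_prod_erase _ _ hi]
  field_simp [hne i]

lemma Rn_eq (n : ℕ) {s : ℝ} (hs : 0 < s) : Rn n s = rho n s ^ 2 := by
  rw [rho_eq n hs, mul_pow, ← pow_mul, mul_comm n 2, pow_mul]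
  simp [Rn]

/-- `∑ c_i / (s + i)^2` -/
noncomputable def rho' (n : ℕ) (s : ℝ) : ℝ := ∑ i ∈ Finset.range (n + 1), (pl n).coeff i / (s + i) ^ 2

lemma hasDerivAt_rho (n : ℕ) {s : ℝ} (hs : 0 < s) : HasDerivAt (rho n) (-rho' n s) s := by
  have h : ∀ i ∈ Finset.range (n + 1), HasDerivAt (fun s => (pl n).coeff i / (s + i))
      (-((pl n).coeff i / (s + i) ^ 2)) s := by
    intro i _
    have hne : s + (i : ℝ) ≠ 0 := by positivity
    have h1 : HasDerivAt (fun s : ℝ => s + (i : ℝ)) 1 s := (hasDerivAt_id s).add_const _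
    have h2 := (h1.fun_inv hne).const_mul ((pl n).coeff i)
    have h3 : (pl n).coeff i * (-1 / (s + (i : ℝ)) ^ 2) = -((pl n).coeff i / (s + i) ^ 2) := by ring
    exact (h2.congr_deriv h3)
  have h5 := HasDerivAt.fun_sum h
  have h6 : ∑ i ∈ Finset.range (n + 1), -((pl n).coeff i / (s + i) ^ 2) = -rho' n s := by
    rw [Finset.sum_neg_distrib]
    rfl
  exact h5.congr_deriv h6

lemma deriv_Rn (n : ℕ) {s : ℝ} (hs : 0 < s) : deriv (Rn n) s = -(2 * rho n s * rho' n s) := by
  have h1 : HasDerivAt (fun s => rho n s ^ 2) (-(2 * rho n s * rho' n s)) s := by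
    have := (hasDerivAt_rho n hs).fun_pow 2
    refine this.congr_deriv ?_
    simp
  have h2 : HasDerivAt (Rn n) (-(2 * rho n s * rho' n s)) s := by
    refine h1.congr_of_eventuallyEq ?_
    filter_upwards [lt_mem_nhds hs] with t ht
    exact Rn_eq n ht
  exact h2.deriv

lemma Jn_eq (n : ℕ) : 2 * Jn n = ∑' m : ℕ, 2 * rho n ((m : ℝ) + 1) * rho' n ((m : ℝ) + 1) := by
  unfold Jn
  have h : ∀ m : ℕ, deriv (Rn n) ((m : ℝ) + 1) = -(2 * rho n ((m : ℝ) + 1) * rho' n ((m : ℝ) + 1)) :=
    fun m => deriv_Rn n (by positivity)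
  simp only [h, tsum_neg]
  ring

end Pool.Agent.E8helper20.AZ
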